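import Pool.Agent.helper20.BL.ChainIso

/-!
# A Dedekind complete projective Banach lattice that is not an `ℓ¹`-sum

The example is `ℓ¹` with the norm whose unit ball is the closed solid convex hull of the vectors
`e n + e (n + 1)`.  It is projective in the isometric sense, Dedekind complete, and every lattice
isomorphism from it onto an `ℓ¹`-sum of finite-dimensional Banach lattices has distortion at
least `2`; in particular it is not isometrically lattice isomorphic to such a sum.

The definitions of closed ideals, of the quotient lattice `X / J`, of lattice homomorphisms and of
projectivity are in `Pool/Agent/helper20/BL/Basic.lean`.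
-/

namespace Pool.Agent.Results.MP_23899c_an.ChainLattice

open Pool.Agent.Helper20.BL

universe u v w

/-- There is a Dedekind complete projective Banach lattice `P` such that every lattice isomorphism
of `P` onto an `ℓ¹`-sum of finite-dimensional Banach lattices has distortion at least `2`. -/
theorem result :
    ∃ (P : Type) (_ : NormedAddCommGroup P) (_ : NormedSpace ℝ P) (_ : Lattice P)
      (_ : IsBanachLattice P), DedekindComplete P ∧ IsProjective.{u, 0} P ∧
      ∀ (ι : Type w) (E : ι → Type v) [∀ i, NormedAddCommGroup (E i)] [∀ i, NormedSpace ℝ (E i)]
        [∀ i, Lattice (E i)] [∀ i, IsBanachLattice (E i)] [∀ i, FiniteDimensional ℝ (E i)]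
        (a b : ℝ), L1SumIso P E a b → 2 ≤ a * b :=
  ⟨ChainSpace, inferInstance, inferInstance, inferInstance, inferInstance,
    ChainSpace.dedekind_complete, chain_projective,
    fun _ _ _ _ _ _ _ a b h => chain_distortion a b h⟩

end Pool.Agent.Results.MP_23899c_an.ChainLattice
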